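import Pool.Agent.Helper98.TA.Basic
import Pool.Agent.Helper40.TA.Dir

/-!
Row HUX of the sheet TA (MP_7a8f48_an): the hull exists.
-/

open MeasureTheory Filter Topology Finset
open scoped ComplexConjugate

namespace Pool.Agent.Helper19.TA

open Pool.Agent.Helper98.TW Pool.Agent.Helper98.TA
open Pool.Agent.Helper40.TWM (St)
open Pool.Agent.Helper98.GY (JY)
open Pool.Agent.Helper40.TA (sp le_sp lm_sp ia_sp cl lm_cl lq_cl ia_cl exists_max)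

variable {Ω : Type} [m0 : MeasurableSpace Ω] {μ : Measure Ω} {S S' : Ω → Ω} {p q : ℕ}
  {κ : Measure (Ω × Ω)} {D E : SA Ω}

/-- the property of the hull is inherited by smaller sigma algebras -/
theorem qq_anti [IsProbabilityMeasure μ] (hJ : JY S μ p q κ) (hD : Lm D) (hq : LQ μ D E) (h : QQ μ S q κ E) :
    QQ μ S q κ D := by
  intro ψ hψ hi M hM hc hv
  refine h ψ hψ hi M hM hc ?_
  have h1 : LQ κ (jo (B2 Ω) (J1 D)) (jo (B2 Ω) (J1 E)) :=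
    lq_jo lq_jo_left (lq_trans (lq_J1 hJ hD hq) lq_jo_right)
  exact h1 _ hv

theorem st_HUX (hHQ0 : ST_HQ0) (hHQS : ST_HQS) (hHQC : ST_HQC) (hHQB : ST_HQB)
    (hSIN : ST_SIN) : ST_HUX := by
  intro Ω _ μ _ S S' u A N p q κ hSt hTr hp hq hpq hJ
  have hS : Sys μ S S' := Pool.Agent.Helper98.TA.St.s1 hSt
  have hcop : Nat.Coprime p q := (Nat.coprime_primes hp hq).2 hpq
  have hz := exists_max (μ := μ) (Q := fun D : SA Ω => IA μ D S S' ∧ QQ μ S q κ D) (D₀ := bo)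
    ⟨ia_bo hS, hHQ0 Ω μ S S' p q κ hSt hp hq hpq hJ⟩ (fun D h => h.1.1)
    (fun D h => ⟨ia_cl h.1, qq_anti hJ lm_cl lq_cl h.2⟩)
    (by
      intro c hne hc hQ
      obtain ⟨D₁, hD₁, hq₁, hle⟩ := hHQS Ω μ S S' p q κ c hSt hJ hne hc hQ
      have hlm : Lm (sp c) := lm_sp fun D hD => (hQ D hD).1.1
      have h1 : @LE.le (MeasurableSpace Ω) _ (sp c) D₁ :=
        sSup_le (α := MeasurableSpace Ω) fun D hD => hle D hD
      exact ⟨ia_sp hS fun D hD => (hQ D hD).1, qq_anti hJ hlm (lq_of_le h1) hq₁⟩)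
  obtain ⟨D, ⟨hia, hqq⟩, -, hmax⟩ := hz
  have hc : ∀ ψ, UF μ ψ → Inc μ D S^[p] ψ → ∀ M : ℕ, 1 ≤ M → Nat.Coprime M q →
      AM μ D (fun x => ψ x ^ M) → AM μ D ψ := by
    intro ψ hψ hi M hM hMq hpow
    have h1 := hHQC Ω μ S S' p q κ D hSt hq hJ hia hqq _ rfl
    exact hmax _ h1 lq_jo_left _ (am_jo_right (am_sg ⟨hψ, hi, M, hM, hMq, hpow⟩))
  have hs : ∀ ψ, UF μ ψ → Inc μ D S^[p] ψ → Inc μ D S ψ := by
    refine hSIN Ω μ S S' u A N D p hSt hTr hia hp.one_lt.le ?_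
    intro ψ hψ hi hpow
    exact hc ψ hψ (inc_iter hia hS hψ hi p) p hp.one_lt.le hcop hpow
  refine ⟨D, hia, hqq, hc, hs, ?_⟩
  intro ψ hψ hi hv
  have h1 := hHQB Ω μ S S' p q κ D hSt hJ hia hqq hs _ rfl
  exact hmax _ h1 lq_jo_left _ (am_jo_right (am_sg ⟨hψ, hi, hv⟩))

end Pool.Agent.Helper19.TA
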